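import Mathlib
import Pool.Agent.Lib.MP_ab1b6f_lc.Defs
import Pool.Agent.Lib.MP_ab1b6f_lcH.HFinal

/-!
# Every improving path of a smoothed linear program is short: `exp (O (√n (log n) ^ 2 log (m / σ)))`

`law Dbar σ` is the law of the perturbed data `(A, b)` (independent Gaussian entries of variance
`σ ^ 2` centred at the entries of `Dbar`), `poly D` is the polyhedron `A x ≤ b`, `BetterNbr P c v w`
says that `w` is a vertex of `P` adjacent to the vertex `v` with a larger objective, `pathLen p v` is
the expected number of pivot steps of the path from the vertex `v` with transition probabilities `p`.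
-/

open scoped ENNReal NNReal
open MeasureTheory ProbabilityTheory Pool.Agent.Lib.MP_ab1b6f_lc

/-- There is a random variable `g` whose expectation (over the perturbation) is at most
`((m + n + 2) (1 + 1 / σ)) ^ (C √n (1 + log n) ^ 2)` and which bounds the length of every path
`x 0, x 1, …, x l` of vertices with `x (i + 1)` an improving neighbour of `x i` for all `i < l` (every
path of every pivoting rule), as well as the expected number of pivot steps of the greedy, the
steepest-edge and the random rule from any start vertex and with any way of breaking ties. -/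
theorem Pool.Agent.Results.MP_ab1b6f_lc.EveryPivotRule.result :
    ∃ C : ℝ, ∀ (m n : ℕ) (σ : ℝ≥0) (Dbar : Data m n) (c : Pt n), 0 < σ →
      ∑ i, ∑ j, Dbar i j ^ 2 ≤ 1 →
      ∃ g : Data m n → ℝ≥0∞, Measurable g ∧
        (∀ (D : Data m n) (l : ℕ) (x : ℕ → Pt n),
          (∀ i < l, BetterNbr (poly D) c (x i) (x (i + 1))) → (l : ℝ≥0∞) ≤ g D) ∧
        (∀ (D : Data m n) (p : Pt n → Pt n → ℝ≥0∞) (v : Pt n),
          (Greedy (poly D) c p ∨ Steepest (poly D) c p ∨ Random (poly D) c p) →
            pathLen p v ≤ g D) ∧
        ∫⁻ D, g D ∂(law Dbar σ) ≤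
          ENNReal.ofReal (((m + n + 2) * (1 + 1 / (σ : ℝ))) ^
            (C * √(n : ℝ) * (1 + Real.log n) ^ 2)) :=
  Pool.Agent.Lib.MP_ab1b6f_lcH.main
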